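import Mathlib

set_option autoImplicit false

namespace Pool.Agent.Results.MP_acde3d_al.Recover

/-- The generalized non-coprime graph `Γ_{G,H}`. -/
def graph {G : Type} [Group G] (H : Subgroup G) : SimpleGraph {x : G // x ≠ 1} where
  Adj a b := a ≠ b ∧ Nat.gcd (orderOf a.1) (orderOf b.1) ≠ 1 ∧ (a.1 ∈ H ∨ b.1 ∈ H)
  symm := ⟨fun _ _ h => ⟨h.1.symm, by rw [Nat.gcd_comm]; exact h.2.1, h.2.2.symm⟩⟩
  loopless := ⟨fun _ h => h.1 rfl⟩

variable {G G' : Type} [Group G] [Group G'] {H : Subgroup G} {H' : Subgroup G'}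

lemma even_mul {u h : G} (hu : orderOf u = 2) (hc : Commute u h) (hh : u ∉ Subgroup.zpowers h) :
    2 ∣ orderOf (u * h) := by
  by_contra e
  obtain ⟨k, hk⟩ := Nat.not_even_iff_odd.mp (mt even_iff_two_dvd.mp e)
  have := pow_orderOf_eq_one (u * h)
  rw [hc.mul_pow, hk, pow_succ u, pow_mul u, ← hu, pow_orderOf_eq_one, one_pow, one_mul] at this
  exact hh (eq_inv_of_mul_eq_one_left this ▸ inv_mem (Subgroup.npow_mem_zpowers _ _))

lemma two_of {u : {x : G // x ≠ 1}} (h : u.1⁻¹ = u) : orderOf u.1 = 2 :=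
  orderOf_eq_prime (by rw [sq]; exact mul_eq_one_iff_inv_eq.mpr h) u.2

lemma twin (hH : H ≠ ⊥) (u : {x : G // x ≠ 1}) (hu : u.1 ∉ H) :
    ∃ y : {x : G // x ≠ 1}, y.1 ∉ H ∧ y ≠ u ∧ orderOf u.1 ∣ orderOf y.1 := by
  by_contra! c
  have h1 : u.1⁻¹ = u := by
    by_contra e
    exact c ⟨u.1⁻¹, inv_ne_one.mpr u.2⟩ (by simpa using hu) (fun h => e (congrArg Subtype.val h))
      (by simp)
  obtain ⟨⟨h, hh⟩, h0⟩ := Subgroup.ne_bot_iff_exists_ne_one.mp hH
  have h2 : h * u * h⁻¹ = u := by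
    by_contra e
    exact c ⟨h * u * h⁻¹, by simpa using u.2⟩ (by simpa [mul_mem_cancel_left, mul_mem_cancel_right,
      hh] using hu) (fun h => e (congrArg Subtype.val h))
        (by simpa using ((MulAut.conj h).orderOf_eq u.1).symm.dvd)
  refine c ⟨u * h, fun e => hu (eq_inv_of_mul_eq_one_left e ▸ inv_mem hh)⟩
    (by simpa [mul_mem_cancel_right, hh] using hu) (fun e => h0 (Subtype.ext
      (by simpa using congrArg Subtype.val e))) ?_
  rw [two_of h1]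
  exact even_mul (two_of h1) (mul_inv_eq_iff_eq_mul.mp h2).symm
    fun e => hu (Subgroup.zpowers_le.mpr hh e)

lemma adj_twin {u y x : {x : G // x ≠ 1}} (hu : u.1 ∉ H) (hy : y.1 ∉ H)
    (h : orderOf u.1 ∣ orderOf y.1) (e : (graph H).Adj x u) : (graph H).Adj x y :=
  ⟨fun c => hy (c ▸ e.2.2.resolve_right hu), fun c => e.2.1 (Nat.Coprime.coprime_dvd_right h c),
    .inl (e.2.2.resolve_right hu)⟩

lemma step1 (hH' : H' ≠ ⊥) (φ : graph H ≃g graph H') {v} (hv : v.1 ∈ H) (hu : (φ v).1 ∉ H') :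
    orderOf v.1 = 2 := by
  refine two_of (by_contra fun e => ?_)
  obtain ⟨y, h1, h2, h3⟩ := twin hH' _ hu
  obtain ⟨y, rfl⟩ := φ.surjective y
  have h4 := φ.map_adj_iff.mp (adj_twin hu h1 h3 (φ.map_adj_iff.mpr
    (show (graph H).Adj ⟨v.1⁻¹, inv_ne_one.mpr v.2⟩ v from
      ⟨fun c => e (congrArg Subtype.val c), by simpa using v.2, .inr hv⟩)))
  exact (φ.map_adj_iff.mpr (show (graph H).Adj v y from ⟨fun c => h2 (c ▸ rfl),
    by simpa using h4.2.1, .inl hv⟩)).2.2.elim hu h1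

lemma adj_even {a b : {x : G // x ≠ 1}} (h : a ≠ b) (ha : 2 ∣ orderOf a.1) (hb : 2 ∣ orderOf b.1)
    (h' : a.1 ∈ H) : (graph H).Adj a b :=
  ⟨h, fun c => by simpa [c] using Nat.dvd_gcd ha hb, .inl h'⟩

lemma main (hH : H ≠ ⊥) (hH' : H' ≠ ⊥) (φ : graph H ≃g graph H') {v} (hv : v.1 ∈ H) :
    (φ v).1 ∈ H' := by
  by_contra hu
  have h1 := step1 hH' φ hv hu
  have h2 (w : {x : G // x ≠ 1}) (hw : 2 ∣ orderOf w.1) : w.1 ∈ H := by
    by_contra c
    obtain ⟨y, h3, h4, h5⟩ := twin hH w c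
    have key (z : {x : G // x ≠ 1}) (hz : 2 ∣ orderOf z.1) (hz' : z.1 ∉ H) :
        (φ z).1 ∈ H' ∧ 2 ∣ orderOf (φ z).1 := by
      have := (φ.map_adj_iff.mpr (adj_even (fun e : v = z => hz' (e ▸ hv)) h1.symm.dvd hz
        hv)).2.2.resolve_left hu
      exact ⟨this, (step1 hH φ.symm this (by simpa using hz')).symm.dvd⟩
    exact (φ.map_adj_iff.mp (adj_even (φ.injective.ne h4) (key y (hw.trans h5) h3).2 (key w hw c).2
      (key y (hw.trans h5) h3).1)).2.2.elim h3 c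
  obtain ⟨y, h3, h4, h5⟩ := twin hH' _ hu
  obtain ⟨y, rfl⟩ := φ.surjective y
  have h6 : y.1 ∉ H := fun c => (φ.map_adj_iff.mpr (adj_even (fun e : y = v => h4 (e ▸ rfl))
    (step1 hH' φ c h3).symm.dvd h1.symm.dvd c)).2.2.elim h3 hu
  have h7 : y.1 * v * y.1⁻¹ = v := by
    by_contra e
    have h8 : orderOf (y.1 * v * y.1⁻¹) = 2 := ((MulAut.conj y.1).orderOf_eq v.1).trans h1
    have := (φ.map_adj_iff.mp (adj_twin hu h3 h5 (φ.map_adj_iff.mpr (adj_even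
      (b := ⟨y.1 * v * y.1⁻¹, by simpa using v.2⟩) (fun c => e (congrArg Subtype.val c).symm)
        h1.symm.dvd h8.symm.dvd hv).symm))).2.1
    rw [h8] at this
    exact this ((Nat.Prime.coprime_iff_not_dvd Nat.prime_two).mpr fun c => h6 (h2 y c))
  refine h6 ((mul_mem_cancel_left hv).mp (h2 ⟨v * y, fun e => h6 (eq_inv_of_mul_eq_one_right e ▸
    inv_mem hv)⟩ (even_mul h1 (mul_inv_eq_iff_eq_mul.mp h7).symm fun c => ?_)))
  exact h6 (h2 y (h1 ▸ orderOf_dvd_of_mem_zpowers c))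

/-- Every isomorphism of generalized non-coprime graphs matches the two subgroups. -/
theorem result (G G' : Type) [Group G] [Group G'] [Finite G] [Finite G'] (H : Subgroup G)
    (H' : Subgroup G') (hH : H ≠ ⊥) (hH' : H' ≠ ⊥) (φ : graph H ≃g graph H') :
    φ '' {v | v.1 ∈ H} = {v | v.1 ∈ H'} :=
  Set.ext fun u => ⟨fun ⟨_, hv, e⟩ => e ▸ main hH hH' φ hv,
    fun hu => ⟨φ.symm u, main hH' hH φ.symm hu, φ.apply_symm_apply u⟩⟩

end Pool.Agent.Results.MP_acde3d_al.Recover
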